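import Pool.Agent.Helper31.LW.Goals

open MeasureTheory Set
open scoped ENNReal

namespace Pool.Agent.Helper15.LW

theorem gGAM : Pool.Agent.Helper31.LW.GAM := by
  intro n v hv
  have h1 : ∫ r in Ioi (0 : ℝ), r ^ ((n : ℝ) + 1 - 1) * Real.exp (-(v * r)) =
      (1 / v) ^ ((n : ℝ) + 1) * Real.Gamma ((n : ℝ) + 1) :=
    Real.integral_rpow_mul_exp_neg_mul_Ioi (by positivity) hv
  have h2 : ∫ r in Ioi (0 : ℝ), r ^ n * Real.exp (-(r * v)) =
      (1 / v) ^ (n + 1) * (n.factorial : ℝ) := by
    rw [Real.Gamma_nat_eq_factorial] at h1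
    have e : (1 / v : ℝ) ^ ((n : ℝ) + 1) = (1 / v) ^ (n + 1) := by
      have := Real.rpow_natCast (1 / v) (n + 1)
      rw [← this]; push_cast; rfl
    rw [e] at h1
    rw [← h1]
    refine setIntegral_congr_fun measurableSet_Ioi ?_
    intro r hr
    have : r ^ ((n : ℝ) + 1 - 1) = r ^ n := by
      rw [add_sub_cancel_right, Real.rpow_natCast]
    simp only [this, mul_comm r v]
  have hpos : 0 < ∫ r in Ioi (0 : ℝ), r ^ n * Real.exp (-(r * v)) := by
    rw [h2]; positivity
  have hint : IntegrableOn (fun r : ℝ => r ^ n * Real.exp (-(r * v))) (Ioi 0) := by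
    by_contra hc
    rw [integral_undef hc] at hpos
    exact lt_irrefl _ hpos
  have h3 : ∫⁻ r in Ioi (0 : ℝ), ENNReal.ofReal (r ^ n) * ENNReal.ofReal (Real.exp (-(r * v))) =
      ENNReal.ofReal (∫ r in Ioi (0 : ℝ), r ^ n * Real.exp (-(r * v))) := by
    rw [ofReal_integral_eq_lintegral_ofReal hint]
    · refine setLIntegral_congr_fun measurableSet_Ioi ?_
      intro r hr
      have hr' : (0 : ℝ) < r := hr
      simp only
      rw [ENNReal.ofReal_mul (by positivity)]
    · refine (ae_restrict_iff' measurableSet_Ioi).2 (Filter.Eventually.of_forall ?_)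
      intro r hr
      have hr' : (0 : ℝ) < r := hr
      simp only [Pi.zero_apply]
      positivity
  rw [h3, h2, ← ENNReal.ofReal_pow hv.le, ← ENNReal.ofReal_inv_of_pos (by positivity),
    ← ENNReal.ofReal_mul (by positivity)]
  have hf : (n.factorial : ℝ) ≠ 0 := by positivity
  have hv' : v ^ (n + 1) ≠ 0 := by positivity
  congr 1
  rw [one_div, inv_pow, mul_comm ((v ^ (n + 1))⁻¹) _, ← mul_assoc, inv_mul_cancel₀ hf, one_mul]

end Pool.Agent.Helper15.LW
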